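import Pool.Agent.H41.KG.FinD

/-! # The moment inequality for zeta functions of generalised primes

Two Beurling systems which differ only in a thin set of primes, each moved by `O(log p)`, and which both satisfy the Riemann
hypothesis, the prime number theorem with error `O(log log x)` and `N(x) = c x + O(x^(1/2+ε))`. For the first one the
inequality `M_k(T) < T (log T)^(k^2)` holds for every integer `k ≥ 1` and all large `T`; for the second one `M_k(T)` exceeds
`exp ((log T)^B)` for arbitrarily large `T`, for every real `k > 0` and every `B`. -/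

set_option autoImplicit false

open MeasureTheory Filter Topology Set

namespace Pool.Agent.Results.MP_3d0d30_nt.BeurlingBounds

/-- A system of Beurling generalised primes `1 < p 0 < p 1 < ...` tending to infinity. -/
structure IsSystem (p : ℕ → ℝ) : Prop where
  one_lt : 1 < p 0
  strictMono : StrictMono p
  tendsto : Tendsto p atTop atTop

/-- The number of generalised primes `≤ x`. -/
noncomputable def primeCount (p : ℕ → ℝ) (x : ℝ) : ℕ := {n : ℕ | p n ≤ x}.ncard

/-- The number of generalised integers `≤ x`, that is of finite products `∏ p k ^ a k` (exponents `a k : ℕ`, only finitely many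
different from `0`; different families of exponents are counted separately). -/
noncomputable def integerCount (p : ℕ → ℝ) (x : ℝ) : ℕ :=
  {a : ℕ →₀ ℕ | (a.prod fun k e => p k ^ e) ≤ x}.ncard

/-- The counting laws: `π(x) = li(x) + O(1 + |log log x|)` and `N(x) = c x + O(x^(1/2+ε))`. -/
structure IsRegular (p : ℕ → ℝ) : Prop where
  primes : ∃ A : ℝ, ∀ x : ℝ, 3 ≤ x →
    |(primeCount p x : ℝ) - ∫ t in (2 : ℝ)..x, 1 / Real.log t| ≤ A * (1 + |Real.log (Real.log x)|)
  integers : ∃ c : ℝ, 0 < c ∧ ∀ ε : ℝ, 0 < ε → ∃ A : ℝ, ∀ x : ℝ, 1 ≤ x →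
    |(integerCount p x : ℝ) - c * x| ≤ A * x ^ (1 / 2 + ε)

/-- `Z` is the zeta function of the system in the quarter plane `re s > 1/3`, `im s > 0`: it is analytic and without zeros
there, and equal to the Euler product for `re s > 1`. -/
structure IsZeta (p : ℕ → ℝ) (Z : ℂ → ℂ) : Prop where
  analytic : DifferentiableOn ℂ Z {s | 1 / 3 < s.re ∧ 0 < s.im}
  ne_zero : ∀ s : ℂ, 1 / 3 < s.re → 0 < s.im → Z s ≠ 0
  euler : ∀ s : ℂ, 1 < s.re → 0 < s.im →
    Tendsto (fun N : ℕ => ∏ n ∈ Finset.range N, (1 - (p n : ℂ) ^ (-s))⁻¹) atTop (𝓝 (Z s))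

/-- The moment `∫_1^T |Z(1/2+it)|^(2k) dt` (from `1`, since `Z` may be singular at `1/2`). -/
noncomputable def moment (Z : ℂ → ℂ) (k T : ℝ) : ℝ :=
  ∫ t in (1 : ℝ)..T, ‖Z (1 / 2 + t * Complex.I)‖ ^ (2 * k)

open Pool.Agent.H41.KS Pool.Agent.H41.BC Pool.Agent.H41.KG in
lemma facts {α : ℕ → ℝ} (H : Cl α) {W : ℕ → ℝ} (hW : ∀ n, W n ∈ Ioc (α n) (α (n + 1))) (hN : NLaw W) :
    IsSystem (fun n => Real.exp (W n)) ∧ IsRegular (fun n => Real.exp (W n)) ∧
      IsZeta (fun n => Real.exp (W n)) (ff α W) := by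
  have hlt : ∀ n, W n < W (n + 1) := fun n => (hW n).2.trans_lt (hW (n + 1)).1
  have hW4 : ∀ n, 4 < W n := fun n => by linarith [(hW n).1, H.four_le n]
  have hWT : Tendsto W atTop atTop := tendsto_atTop_mono (fun n => (hW n).1.le) H.tendsto
  have hic : ∀ x : ℝ, integerCount (fun n => Real.exp (W n)) x = NN W x := by
    intro x
    unfold integerCount NN
    congr 1
    ext a
    have : (a.prod fun k e => Real.exp (W k) ^ e) = Real.exp (lg W a) := by
      unfold lg
      rw [Finsupp.prod, Finsupp.sum, Real.exp_sum]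
      exact Finset.prod_congr rfl fun k _ => (Real.exp_nat_mul _ _).symm
    simp only [Set.mem_ofPred_eq, this]
  refine ⟨⟨Real.one_lt_exp_iff.2 (by linarith [hW4 0]),
    strictMono_nat_of_lt_succ fun n => Real.exp_lt_exp.2 (hlt n), Real.tendsto_exp_atTop.comp hWT⟩,
    ⟨pi_law H hW, ?_⟩, ⟨ff_diff H hW, fun s _ _ => Complex.exp_ne_zero _, fun s hs hs' => ?_⟩⟩
  · simp_rw [hic]
    exact hN
  · refine (ff_euler H hW hs hs').congr fun M => Finset.prod_congr rfl fun n _ => ?_
    have h1 : ((Real.exp (W n) : ℝ) : ℂ) ≠ 0 := by exact_mod_cast (Real.exp_pos _).ne'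
    rw [Complex.cpow_def_of_ne_zero h1, ← Complex.ofReal_log (Real.exp_pos _).le, Real.log_exp]
    congr 3
    ring

open Pool.Agent.H41.KS Pool.Agent.H41.BC Pool.Agent.H41.KG in
theorem result : ∃ (p p' : ℕ → ℝ) (Z Z' : ℂ → ℂ),
    IsSystem p ∧ IsRegular p ∧ IsZeta p Z ∧ IsSystem p' ∧ IsRegular p' ∧ IsZeta p' Z' ∧
    (∀ n, |p' n - p n| ≤ 6 * Real.log (p n)) ∧
    (∀ σ : ℝ, 1 / 2 < σ → Summable (Set.indicator {n | p n ≠ p' n} fun n => p n ^ (-σ))) ∧
    (∀ k : ℕ, 1 ≤ k → (∀ᶠ T : ℝ in atTop, moment Z k T < T * Real.log T ^ (k ^ 2)) ∧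
      ∃ C : ℝ, 0 < C ∧ C < 1 ∧ Tendsto (fun T : ℝ => moment Z k T / (T * Real.log T ^ (k ^ 2))) atTop (𝓝 C)) ∧
    (∀ k : ℝ, 0 < k → ∀ B : ℝ, ∃ᶠ T : ℝ in atTop, Real.exp (Real.log T ^ B) < moment Z' k T) := by
  obtain ⟨α, H⟩ := exists_cl
  obtain ⟨W, W', hW, hW', hN, hN', hthin, h1, h2⟩ := two_sys H
  obtain ⟨a1, a2, a3⟩ := facts H hW hN
  obtain ⟨b1, b2, b3⟩ := facts H hW' hN'
  refine ⟨fun n => Real.exp (W n), fun n => Real.exp (W' n), ff α W, ff α W', a1, a2, a3, b1, b2, b3,
    fun n => ?_, fun σ hσ => ?_, fun k hk => ?_, fun k hk B => h2 k hk B⟩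
  · -- the primes are moved by `O(log p)`
    have hα := H.four_le n
    have hs : α (n + 1) ≤ α n + 1 := H.short n
    have hl := Pool.Agent.H41.KS.len H n
    have h3 : |W' n - W n| ≤ α (n + 1) - α n := by
      rw [abs_le]
      constructor <;> linarith [(hW n).1, (hW n).2, (hW' n).1, (hW' n).2]
    have h4 : |Real.exp (W' n) - Real.exp (W n)| ≤ |W' n - W n| * Real.exp (α (n + 1)) := by
      have e : ∀ u v : ℝ, u ≤ v → v ≤ α (n + 1) → Real.exp v - Real.exp u ≤ (v - u) * Real.exp (α (n + 1)) := by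
        intro u v huv hv
        have h5 := Real.add_one_le_exp (u - v)
        have h6 : Real.exp u = Real.exp v * Real.exp (u - v) := by rw [← Real.exp_add]; congr 1; ring
        have h7 : Real.exp v ≤ Real.exp (α (n + 1)) := Real.exp_le_exp.2 hv
        have h8 := Real.exp_pos v
        rw [h6]
        nlinarith
      rcases le_total (W n) (W' n) with h | h
      · rw [abs_of_nonneg (by linarith [Real.exp_le_exp.2 h]), abs_of_nonneg (by linarith)]
        exact e _ _ h (hW' n).2
      · rw [abs_of_nonpos (by linarith [Real.exp_le_exp.2 h]), abs_of_nonpos (by linarith)]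
        have := e _ _ h (hW n).2
        linarith
    rw [Real.log_exp]
    refine h4.trans ?_
    calc |W' n - W n| * Real.exp (α (n + 1)) ≤ (2 * α n * Real.exp (-α n)) * Real.exp (α n + 1) :=
          mul_le_mul (h3.trans hl) (Real.exp_le_exp.2 hs) (Real.exp_pos _).le (by positivity)
      _ = 2 * α n * Real.exp 1 := by rw [mul_assoc, ← Real.exp_add]; congr 2; ring
      _ ≤ 2 * α n * 3 := mul_le_mul_of_nonneg_left (by have := Real.exp_one_lt_d9; linarith) (by linarith)
      _ ≤ 6 * W n := by linarith [(hW n).1]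
  · -- thinness
    refine Summable.of_nonneg_of_le (fun n => Set.indicator_nonneg (fun _ _ => by positivity) _) (fun n => ?_) (hthin σ hσ)
    by_cases hn : W n = W' n
    · rw [Set.indicator_of_notMem, Set.indicator_of_notMem]
      · simp only [Set.mem_ofPred_eq, not_not]; exact hn
      · simp only [Set.mem_ofPred_eq, not_not]; rw [hn]
    · rw [Set.indicator_of_mem, Set.indicator_of_mem]
      · rw [← Real.exp_mul]
        refine Real.exp_le_exp.2 ?_
        have h0 : 0 < σ := by linarith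
        nlinarith [(hW n).1]
      · exact hn
      · simp only [Set.mem_ofPred_eq]
        exact fun h => hn (Real.exp_injective h)
  · obtain ⟨K, rfl⟩ : ∃ K, k = K + 1 := ⟨k - 1, by omega⟩
    obtain ⟨C, hC0, hC1, hlim⟩ := h1 K
    have hm : ∀ T : ℝ, moment (ff α W) ((K + 1 : ℕ) : ℝ) T =
        ∫ t in (1 : ℝ)..T, ‖ff α W (1 / 2 + t * Complex.I)‖ ^ (2 * (K + 1)) := by
      intro T
      unfold moment
      refine intervalIntegral.integral_congr fun t _ => ?_
      have : 2 * (((K + 1 : ℕ) : ℝ)) = ((2 * (K + 1) : ℕ) : ℝ) := by push_cast; ring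
      rw [this, Real.rpow_natCast]
    have hlim2 : Tendsto (fun T : ℝ => moment (ff α W) ((K + 1 : ℕ) : ℝ) T / (T * Real.log T ^ ((K + 1) ^ 2))) atTop (𝓝 C) := by
      simp_rw [hm]
      exact hlim
    refine ⟨?_, C, hC0, hC1, hlim2⟩
    filter_upwards [hlim2.eventually (gt_mem_nhds hC1), eventually_gt_atTop 1] with T hT hT1
    have hT0 : 0 < T := by linarith
    have hL : 0 < Real.log T := Real.log_pos hT1
    rwa [div_lt_one (by positivity)] at hT

end Pool.Agent.Results.MP_3d0d30_nt.BeurlingBounds
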