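import Pool.Agent.H41.KT.FinD

/-! # The first moments do not control the higher moments, for zeta functions of generalised primes

For every `K` and every `ε` there is a Beurling system which satisfies the Riemann hypothesis, the prime number theorem with
error `O(log log x)` and `N(x) = c x + O(x^(1/2+ε'))`, whose moments of order `2k` have the expected size
`T (log T)^(k^2 ± ε)` for `k = 1, ..., K`, while all moments of order `2k` with real `k > 1400 K^3 / ε` exceed a power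
`T^(1+δ)` of `T`, `δ > 0`, for arbitrarily large `T`. -/

set_option autoImplicit false

open MeasureTheory Filter Topology Set

namespace Pool.Agent.Results.MP_3d0d30_nt.FirstMomentsDoNotSuffice

/-- A system of Beurling generalised primes `1 < p 0 < p 1 < ...` tending to infinity. -/
structure IsSystem (p : ℕ → ℝ) : Prop where
  one_lt : 1 < p 0
  strictMono : StrictMono p
  tendsto : Tendsto p atTop atTop

/-- The number of generalised primes `≤ x`. -/
noncomputable def primeCount (p : ℕ → ℝ) (x : ℝ) : ℕ := {n : ℕ | p n ≤ x}.ncard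

/-- The number of generalised integers `≤ x`, that is of finite products `∏ p k ^ a k` (exponents `a k : ℕ`, only finitely many
different from `0`; different families of exponents are counted separately). -/
noncomputable def integerCount (p : ℕ → ℝ) (x : ℝ) : ℕ :=
  {a : ℕ →₀ ℕ | (a.prod fun k e => p k ^ e) ≤ x}.ncard

/-- The counting laws: `π(x) = li(x) + O(1 + |log log x|)` and `N(x) = c x + O(x^(1/2+ε))`. -/
structure IsRegular (p : ℕ → ℝ) : Prop where
  primes : ∃ A : ℝ, ∀ x : ℝ, 3 ≤ x →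
    |(primeCount p x : ℝ) - ∫ t in (2 : ℝ)..x, 1 / Real.log t| ≤ A * (1 + |Real.log (Real.log x)|)
  integers : ∃ c : ℝ, 0 < c ∧ ∀ ε : ℝ, 0 < ε → ∃ A : ℝ, ∀ x : ℝ, 1 ≤ x →
    |(integerCount p x : ℝ) - c * x| ≤ A * x ^ (1 / 2 + ε)

/-- `Z` is the zeta function of the system in the quarter plane `re s > 1/3`, `im s > 0`: it is analytic and without zeros
there, and equal to the Euler product for `re s > 1`. -/
structure IsZeta (p : ℕ → ℝ) (Z : ℂ → ℂ) : Prop where
  analytic : DifferentiableOn ℂ Z {s | 1 / 3 < s.re ∧ 0 < s.im}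
  ne_zero : ∀ s : ℂ, 1 / 3 < s.re → 0 < s.im → Z s ≠ 0
  euler : ∀ s : ℂ, 1 < s.re → 0 < s.im →
    Tendsto (fun N : ℕ => ∏ n ∈ Finset.range N, (1 - (p n : ℂ) ^ (-s))⁻¹) atTop (𝓝 (Z s))

/-- The moment `∫_1^T |Z(1/2+it)|^(2k) dt` (from `1`, since `Z` may be singular at `1/2`). -/
noncomputable def moment (Z : ℂ → ℂ) (k T : ℝ) : ℝ :=
  ∫ t in (1 : ℝ)..T, ‖Z (1 / 2 + t * Complex.I)‖ ^ (2 * k)

open Pool.Agent.H41.KS Pool.Agent.H41.BC Pool.Agent.H41.KG in
lemma facts {α : ℕ → ℝ} (H : Cl α) {W : ℕ → ℝ} (hW : ∀ n, W n ∈ Ioc (α n) (α (n + 1))) (hN : NLaw W) :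
    IsSystem (fun n => Real.exp (W n)) ∧ IsRegular (fun n => Real.exp (W n)) ∧
      IsZeta (fun n => Real.exp (W n)) (ff α W) := by
  have hlt : ∀ n, W n < W (n + 1) := fun n => (hW n).2.trans_lt (hW (n + 1)).1
  have hW4 : ∀ n, 4 < W n := fun n => by linarith [(hW n).1, H.four_le n]
  have hWT : Tendsto W atTop atTop := tendsto_atTop_mono (fun n => (hW n).1.le) H.tendsto
  have hic : ∀ x : ℝ, integerCount (fun n => Real.exp (W n)) x = NN W x := by
    intro x
    unfold integerCount NN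
    congr 1
    ext a
    have : (a.prod fun k e => Real.exp (W k) ^ e) = Real.exp (lg W a) := by
      unfold lg
      rw [Finsupp.prod, Finsupp.sum, Real.exp_sum]
      exact Finset.prod_congr rfl fun k _ => (Real.exp_nat_mul _ _).symm
    simp only [Set.mem_ofPred_eq, this]
  refine ⟨⟨Real.one_lt_exp_iff.2 (by linarith [hW4 0]),
    strictMono_nat_of_lt_succ fun n => Real.exp_lt_exp.2 (hlt n), Real.tendsto_exp_atTop.comp hWT⟩,
    ⟨pi_law H hW, ?_⟩, ⟨ff_diff H hW, fun s _ _ => Complex.exp_ne_zero _, fun s hs hs' => ?_⟩⟩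
  · simp_rw [hic]
    exact hN
  · refine (ff_euler H hW hs hs').congr fun M => Finset.prod_congr rfl fun n _ => ?_
    have h1 : ((Real.exp (W n) : ℝ) : ℂ) ≠ 0 := by exact_mod_cast (Real.exp_pos _).ne'
    rw [Complex.cpow_def_of_ne_zero h1, ← Complex.ofReal_log (Real.exp_pos _).le, Real.log_exp]
    congr 3
    ring

/-- For every `K ≥ 1` and `0 < ε ≤ 1` there is a regular Beurling system with the Riemann hypothesis and
`T (log T)^(k^2-ε) ≤ M_k(T) ≤ T (log T)^(k^2+ε)` for `k = 1, ..., K` and large `T`, but `M_k(T) > T^(1+δ)` for arbitrarily large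
`T`, for every real `k > 1400 K^3 / ε` with some `δ = δ(k) > 0`. -/
theorem result (K : ℕ) (hK : 1 ≤ K) (ε : ℝ) (hε : 0 < ε) (hε1 : ε ≤ 1) : ∃ (p : ℕ → ℝ) (Z : ℂ → ℂ),
    IsSystem p ∧ IsRegular p ∧ IsZeta p Z ∧
    (∀ k : ℕ, 1 ≤ k → k ≤ K → ∀ᶠ T : ℝ in atTop,
      T * Real.log T ^ ((k : ℝ) ^ 2 - ε) ≤ moment Z k T ∧ moment Z k T ≤ T * Real.log T ^ ((k : ℝ) ^ 2 + ε)) ∧
    (∀ k : ℝ, 1400 * (K : ℝ) ^ 3 / ε < k → ∃ δ : ℝ, 0 < δ ∧ ∃ᶠ T : ℝ in atTop, T ^ (1 + δ) < moment Z k T) := by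
  obtain ⟨α, H⟩ := Pool.Agent.H41.KS.exists_cl
  obtain ⟨W, hW, hN, h1, h2⟩ := Pool.Agent.H41.KT.sys H hK hε hε1
  obtain ⟨a1, a2, a3⟩ := facts H hW hN
  exact ⟨fun n => Real.exp (W n), Pool.Agent.H41.KS.ff α W, a1, a2, a3, h1, h2⟩

end Pool.Agent.Results.MP_3d0d30_nt.FirstMomentsDoNotSuffice
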