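import Pool.Agent.H73.SM.G

/-!
# Explicit high moments of partial sums on the critical line

Let `|a(n)| ≤ 1` for all `n` (for instance `a = 1`, the partial sums of `ζ(1/2 + it)`).  For all
natural numbers `k`, `x ≥ 1` and all `T ≥ 0`,
`∫_0^T |∑_{n ≤ x} a(n) n^(-1/2-it)|^(2k) dt ≤ (T + 4 x^k (1 + k log x)) (log x + k)^(k²) / (k!)^k`,
and for every modulus `q` the mean over all Dirichlet characters mod `q` of
`|∑_{n ≤ x} a(n) χ(n)/√n|^(2k)` is at most `⌈x^k/q⌉ (log x + k)^(k²) / (k!)^k`.  If moreover `k ≥ 2`,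
`x ≥ 1000` and `T ≥ 10 x^k (1 + k log x)` (respectively `q ≥ x^k`), the moment is at most
`T (log x)^(k²)` (respectively the mean is at most `(log x)^(k²)`).
-/

namespace Pool.Agent.Results.MP_3d0d30_nt.PartialSums

open Finset

/-- the `n`-th term on the critical line -/
theorem term_eq (n : ℕ) (hn : n ≠ 0) (t : ℝ) :
    (n : ℂ) ^ (-(1 / 2 : ℂ) - (t : ℂ) * Complex.I) = (((√(n : ℝ))⁻¹ : ℝ) : ℂ) *
      Complex.exp (-((t * Real.log n : ℝ) : ℂ) * Complex.I) := by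
  have hn' : (n : ℂ) ≠ 0 := by exact_mod_cast hn
  have hn0 : (0 : ℝ) ≤ n := Nat.cast_nonneg n
  rw [sub_eq_add_neg, Complex.cpow_add _ _ hn']
  congr 1
  · rw [Complex.cpow_neg]
    have h1 : (n : ℂ) ^ (1 / 2 : ℂ) = ((√(n : ℝ) : ℝ) : ℂ) := by
      rw [Real.sqrt_eq_rpow, Complex.ofReal_cpow hn0]
      push_cast; rfl
    rw [h1]; push_cast; rfl
  · rw [Complex.cpow_def_of_ne_zero hn', ← Complex.natCast_log]
    congr 1
    push_cast; ring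

theorem result (a : ℕ → ℂ) (ha : ∀ n, ‖a n‖ ≤ 1) :
    (∀ k x : ℕ, 1 ≤ x → ∀ T : ℝ, 0 ≤ T →
      ∫ t in (0 : ℝ)..T,
          ‖∑ n ∈ Finset.Icc 1 x, a n * (n : ℂ) ^ (-(1 / 2 : ℂ) - (t : ℂ) * Complex.I)‖ ^ (2 * k) ≤
        (T + 4 * (x : ℝ) ^ k * (1 + k * Real.log x)) *
          ((Real.log x + k) ^ (k ^ 2) / (k.factorial : ℝ) ^ k)) ∧
    (∀ k x : ℕ, 1 ≤ x → ∀ (q : ℕ) [NeZero q],
      (∑ χ : DirichletCharacter ℂ q,
        ‖∑ n ∈ Finset.Icc 1 x, a n * χ (n : ZMod q) / ((√(n : ℝ) : ℝ) : ℂ)‖ ^ (2 * k)) /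
          (q.totient : ℝ) ≤
        (⌈(x : ℝ) ^ k / q⌉₊ : ℝ) * ((Real.log x + k) ^ (k ^ 2) / (k.factorial : ℝ) ^ k)) ∧
    (∀ k x : ℕ, 2 ≤ k → 1000 ≤ x →
      (∀ T : ℝ, 10 * (x : ℝ) ^ k * (1 + k * Real.log x) ≤ T →
        ∫ t in (0 : ℝ)..T,
          ‖∑ n ∈ Finset.Icc 1 x, a n * (n : ℂ) ^ (-(1 / 2 : ℂ) - (t : ℂ) * Complex.I)‖ ^ (2 * k) ≤
          T * Real.log x ^ (k ^ 2)) ∧
      (∀ (q : ℕ) [NeZero q], x ^ k ≤ q →
        (∑ χ : DirichletCharacter ℂ q,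
          ‖∑ n ∈ Finset.Icc 1 x, a n * χ (n : ZMod q) / ((√(n : ℝ) : ℝ) : ℂ)‖ ^ (2 * k)) /
            (q.totient : ℝ) ≤ Real.log x ^ (k ^ 2))) := by
  have hIcc : ∀ x : ℕ, Finset.Icc 1 x = Finset.Ioc 0 x := fun x => rfl
  have A : ∀ k x : ℕ, 1 ≤ x → ∀ T : ℝ, 0 ≤ T →
      ∫ t in (0 : ℝ)..T,
          ‖∑ n ∈ Finset.Icc 1 x, a n * (n : ℂ) ^ (-(1 / 2 : ℂ) - (t : ℂ) * Complex.I)‖ ^ (2 * k) ≤
        (T + 4 * (x : ℝ) ^ k * (1 + k * Real.log x)) *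
          ((Real.log x + k) ^ (k ^ 2) / (k.factorial : ℝ) ^ k) := by
    intro k x hx T hT
    have h1 : ∀ t : ℝ,
        ∑ n ∈ Finset.Icc 1 x, a n * (n : ℂ) ^ (-(1 / 2 : ℂ) - (t : ℂ) * Complex.I) =
        ∑ n ∈ Finset.Ioc 0 x, (((√(n : ℝ))⁻¹ : ℝ) : ℂ) * a n *
          Complex.exp (-((t * Real.log n : ℝ) : ℂ) * Complex.I) := by
      intro t
      rw [hIcc]
      refine Finset.sum_congr rfl fun n hn => ?_
      rw [term_eq n (by rw [Finset.mem_Ioc] at hn; omega) t]; ring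
    simp_rw [h1]
    exact Pool.Agent.H73.SM.t_moment' a ha k x hx T hT
  have B : ∀ k x : ℕ, 1 ≤ x → ∀ (q : ℕ) [NeZero q],
      (∑ χ : DirichletCharacter ℂ q,
        ‖∑ n ∈ Finset.Icc 1 x, a n * χ (n : ZMod q) / ((√(n : ℝ) : ℝ) : ℂ)‖ ^ (2 * k)) /
          (q.totient : ℝ) ≤
        (⌈(x : ℝ) ^ k / q⌉₊ : ℝ) * ((Real.log x + k) ^ (k ^ 2) / (k.factorial : ℝ) ^ k) := by
    intro k x hx q _
    have h1 := Pool.Agent.H73.SM.char_moment' a ha k x hx q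
    have h2 : ∀ χ : DirichletCharacter ℂ q,
        ∑ n ∈ Finset.Icc 1 x, a n * χ (n : ZMod q) / ((√(n : ℝ) : ℝ) : ℂ) =
        ∑ n ∈ Finset.Ioc 0 x, (((√(n : ℝ))⁻¹ : ℝ) : ℂ) * a n * χ (n : ZMod q) := by
      intro χ
      rw [hIcc]
      refine Finset.sum_congr rfl fun n _ => ?_
      rw [div_eq_mul_inv, mul_comm, ← mul_assoc]; push_cast; rfl
    simp_rw [h2]
    push_cast at h1 ⊢
    exact h1
  refine ⟨A, B, fun k x hk hx => ⟨fun T hT => ?_, fun q _ hq => ?_⟩⟩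
  · have hL := Pool.Agent.H73.SM.log_ge' x hx
    have hc := Pool.Agent.H73.SM.cmp_final x k hk hx
    have hk0 : (0 : ℝ) ≤ k := Nat.cast_nonneg k
    have hP : 0 ≤ (x : ℝ) ^ k * (1 + k * Real.log x) :=
      mul_nonneg (by positivity) (by nlinarith)
    have hT0 : 0 ≤ T := by nlinarith
    refine (A k x (by omega) T hT0).trans ?_
    have h3 : T + 4 * (x : ℝ) ^ k * (1 + k * Real.log x) ≤ (7 / 5) * T := by nlinarith
    have hLk : 0 ≤ Real.log x ^ (k ^ 2) := by positivity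
    calc _ ≤ (7 / 5 * T) * ((7 / 10) * Real.log x ^ (k ^ 2)) :=
          mul_le_mul h3 hc (by positivity) (by positivity)
      _ ≤ _ := by nlinarith [mul_nonneg hT0 hLk]
  · have hL := Pool.Agent.H73.SM.log_ge' x hx
    have hc := Pool.Agent.H73.SM.cmp_final x k hk hx
    have hq0 : (0 : ℝ) < q := by exact_mod_cast Nat.pos_of_ne_zero (NeZero.ne q)
    refine (B k x (by omega) q).trans ?_
    have h1 : ⌈(x : ℝ) ^ k / q⌉₊ ≤ 1 := by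
      rw [Nat.ceil_le, Nat.cast_one, div_le_one hq0]
      exact_mod_cast hq
    have h2 : ((⌈(x : ℝ) ^ k / q⌉₊ : ℕ) : ℝ) ≤ 1 := by exact_mod_cast h1
    have hLk : 0 ≤ Real.log x ^ (k ^ 2) := by positivity
    calc _ ≤ 1 * ((7 / 10) * Real.log x ^ (k ^ 2)) :=
          mul_le_mul h2 hc (by positivity) (by norm_num)
      _ ≤ _ := by linarith

end Pool.Agent.Results.MP_3d0d30_nt.PartialSums
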